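import Mathlib

set_option autoImplicit false

namespace Pool.Agent.Results.MP_6ebba1_al.NotDiag

open Module

section Defs
variable {K V : Type} [Field K] [AddCommGroup V] [Module K V]

/-- `f` is diagonalizable: its eigenspaces span the space. -/
def Diag (f : End K V) : Prop := ⨆ μ : K, f.eigenspace μ = ⊤

/-- `θ 0, …, θ d` lists the eigenvalues of `f`, each once; so `f.eigenspace (θ i)` is an
ordering of the eigenspaces of `f`. -/
def IsOrdering (f : End K V) (d : ℕ) (θ : Fin (d + 1) → K) : Prop :=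
  Function.Injective θ ∧ ∀ μ : K, f.HasEigenvalue μ ↔ μ ∈ Set.range θ

/-- `g V_i ⊆ V_{i-1} + V_i + V_{i+1}` for all `i`, where `V_i = f.eigenspace (θ i)`. -/
def Tri (f g : End K V) (d : ℕ) (θ : Fin (d + 1) → K) : Prop :=
  ∀ i : Fin (d + 1), (f.eigenspace (θ i)).map g ≤
    ⨆ j : Fin (d + 1), ⨆ _ : (j : ℕ) ≤ i + 1 ∧ (i : ℕ) ≤ j + 1, f.eigenspace (θ j)

/-- `A, B` is a tridiagonal pair, with the orderings `V_i = A.eigenspace (θ i)` and
`V*_i = B.eigenspace (η i)` of the eigenspaces. -/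
def IsTD (A B : End K V) (d : ℕ) (θ η : Fin (d + 1) → K) : Prop :=
  Diag A ∧ Diag B ∧ IsOrdering A d θ ∧ Tri A B d θ ∧ IsOrdering B d η ∧ Tri B A d η ∧
    ∀ W : Submodule K V, W.map A ≤ W → W.map B ≤ W → W = ⊥ ∨ W = ⊤

/-- `S V_i = V_i` and `S (V*_0 + ⋯ + V*_i) = V*_d + ⋯ + V*_{d-i}` for all `i`. -/
def Admissible (A B : End K V) (d : ℕ) (θ η : Fin (d + 1) → K) (S : End K V) : Prop :=
  ∀ i : Fin (d + 1), (A.eigenspace (θ i)).map S = A.eigenspace (θ i) ∧
    (⨆ j : Fin (d + 1), ⨆ _ : j ≤ i, B.eigenspace (η j)).map S =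
      ⨆ j : Fin (d + 1), ⨆ _ : j ≤ i, B.eigenspace (η (Fin.rev j))

end Defs

/-- The space. -/
abbrev X := Fin 4 → ℂ

/-- First map. -/
noncomputable def A : End ℂ X := Matrix.toLin' !![1,0,0,0; 0,0,0,0; 0,0,0,0; 0,0,0,-1]
/-- Second map. -/
noncomputable def B : End ℂ X := Matrix.toLin' !![5,3,4,0; -3,-5,0,4; 4,0,5,3; 0,4,-3,-5]
/-- The admissible map. -/
noncomputable def S : End ℂ X := Matrix.toLin' !![2,0,0,0; 0,-27,-15,0; 0,15,3,0; 0,0,0,-18]

lemma ext4 {x y : X} : x = y ↔ x 0 = y 0 ∧ x 1 = y 1 ∧ x 2 = y 2 ∧ x 3 = y 3 := by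
  constructor
  · rintro rfl; simp
  · rintro ⟨a, b, c, d⟩; funext i; fin_cases i <;> assumption

lemma A_ap (x : X) : A x = ![x 0, 0, 0, -x 3] := by
  rw [ext4]; simp [A, Matrix.toLin'_apply, Matrix.mulVec, dotProduct, Fin.sum_univ_four]
lemma B_ap (x : X) : B x = ![5 * x 0 + 3 * x 1 + 4 * x 2, -3 * x 0 - 5 * x 1 + 4 * x 3,
    4 * x 0 + 5 * x 2 + 3 * x 3, 4 * x 1 - 3 * x 2 - 5 * x 3] := by
  rw [ext4]; simp [B, Matrix.toLin'_apply, Matrix.mulVec, dotProduct, Fin.sum_univ_four]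
  refine ⟨by ring, by ring⟩
lemma S_ap (x : X) : S x = ![2 * x 0, -27 * x 1 - 15 * x 2, 15 * x 1 + 3 * x 2, -18 * x 3] := by
  rw [ext4]; simp [S, Matrix.toLin'_apply, Matrix.mulVec, dotProduct, Fin.sum_univ_four]
  ring

lemma memA (μ : ℂ) (x : X) : x ∈ A.eigenspace μ ↔
    x 0 = μ * x 0 ∧ 0 = μ * x 1 ∧ 0 = μ * x 2 ∧ -x 3 = μ * x 3 := by
  rw [End.mem_eigenspace_iff, A_ap, ext4]; simp only [Pi.smul_apply, smul_eq_mul]; rfl
lemma memB (μ : ℂ) (x : X) : x ∈ B.eigenspace μ ↔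
    5 * x 0 + 3 * x 1 + 4 * x 2 = μ * x 0 ∧ -3 * x 0 - 5 * x 1 + 4 * x 3 = μ * x 1 ∧
    4 * x 0 + 5 * x 2 + 3 * x 3 = μ * x 2 ∧ 4 * x 1 - 3 * x 2 - 5 * x 3 = μ * x 3 := by
  rw [End.mem_eigenspace_iff, B_ap, ext4]; simp only [Pi.smul_apply, smul_eq_mul]; rfl
lemma memS (μ : ℂ) (x : X) : x ∈ S.eigenspace μ ↔
    2 * x 0 = μ * x 0 ∧ -27 * x 1 - 15 * x 2 = μ * x 1 ∧
    15 * x 1 + 3 * x 2 = μ * x 2 ∧ -18 * x 3 = μ * x 3 := by
  rw [End.mem_eigenspace_iff, S_ap, ext4]; simp only [Pi.smul_apply, smul_eq_mul]; rfl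

/-- A coordinate functional. -/
def fa (x : X) : ℂ := x 0 + 3 * x 1 - x 2 - 3 * x 3
/-- A coordinate functional. -/
def ga (x : X) : ℂ := 3 * x 0 + x 1 + 3 * x 2 + x 3

lemma mem3 (E : Fin 3 → Submodule ℂ X) (P : Fin 3 → Prop) (x a b c : X) (h : x = a + b + c)
    (ha : a ∈ E 0) (hb : b ∈ E 1) (hc : c ∈ E 2) (pa : P 0 ∨ a = 0) (pb : P 1 ∨ b = 0)
    (pc : P 2 ∨ c = 0) : x ∈ ⨆ j, ⨆ _ : P j, E j := by
  have key : ∀ (j : Fin 3) (y : X), y ∈ E j → P j ∨ y = 0 → y ∈ ⨆ j, ⨆ _ : P j, E j := by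
    intro j y hy p
    rcases p with p | p
    · exact Submodule.mem_iSup_of_mem j (Submodule.mem_iSup_of_mem p hy)
    · rw [p]; exact zero_mem _
  rw [h]
  exact add_mem (add_mem (key 0 a ha pa) (key 1 b hb pb)) (key 2 c hc pc)

lemma supA (P : Fin 3 → Prop) (x : X) (h0 : P 0 ∨ x 0 = 0) (h1 : P 1 ∨ (x 1 = 0 ∧ x 2 = 0))
    (h2 : P 2 ∨ x 3 = 0) : x ∈ ⨆ j, ⨆ _ : P j, A.eigenspace (![1, 0, -1] j) := by
  refine mem3 (fun j => A.eigenspace (![1, 0, -1] j)) P x ![x 0, 0, 0, 0] ![0, x 1, x 2, 0]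
    ![0, 0, 0, x 3] ?_ ?_ ?_ ?_ ?_ ?_ ?_
  · rw [ext4]; simp
  · rw [memA]; simp
  · rw [memA]; simp
  · rw [memA]; simp
  · exact h0.imp_right fun h => by rw [ext4]; simp [h]
  · exact h1.imp_right fun h => by rw [ext4]; simp [h.1, h.2]
  · exact h2.imp_right fun h => by rw [ext4]; simp [h]

lemma decB (x : X) : (ga x / 16) • (![3, -1, 3, -1] : X) ∈ B.eigenspace 8 ∧
    (x - (ga x / 16) • (![3, -1, 3, -1] : X) - (-fa x / 16) • (![1, -3, -1, 3] : X))
      ∈ B.eigenspace 0 ∧ (-fa x / 16) • (![1, -3, -1, 3] : X) ∈ B.eigenspace (-8) := by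
  refine ⟨?_, ?_, ?_⟩ <;> rw [memB] <;>
    simp [fa, ga, Matrix.vecHead, Matrix.vecTail] <;> refine ⟨?_, ?_, ?_, ?_⟩ <;> ring

lemma supB (P : Fin 3 → Prop) (x : X) (h0 : P 0 ∨ ga x = 0)
    (h1 : P 1 ∨ x ∈ B.eigenspace 8 ∨ x ∈ B.eigenspace (-8))
    (h2 : P 2 ∨ fa x = 0) : x ∈ ⨆ j, ⨆ _ : P j, B.eigenspace (![8, 0, -8] j) := by
  obtain ⟨d0, d1, d2⟩ := decB x
  refine mem3 (fun j => B.eigenspace (![8, 0, -8] j)) P x _ _ _ (by abel) d0 d1 d2 ?_ ?_ ?_
  · exact h0.imp_right fun h => by simp [h]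
  · refine h1.imp_right fun h => ?_
    rcases h with h | h <;> rw [memB] at h <;> obtain ⟨a, b, c, d⟩ := h <;> rw [ext4] <;>
      simp [fa, ga, Matrix.vecHead, Matrix.vecTail] <;> refine ⟨?_, ?_, ?_, ?_⟩ <;> grind
  · exact h2.imp_right fun h => by simp [h]

lemma revB (P : Fin 3 → Prop) :
    (⨆ j, ⨆ _ : P j, B.eigenspace (![8, 0, -8] (Fin.rev j))) =
      ⨆ j, ⨆ _ : P (Fin.rev j), B.eigenspace (![8, 0, -8] j) := by
  apply le_antisymm
  · refine iSup_le fun j => iSup_le fun h => ?_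
    exact le_iSup₂_of_le (f := fun j (_ : P (Fin.rev j)) => B.eigenspace (![8, 0, -8] j))
      (Fin.rev j) (by simpa using h) le_rfl
  · refine iSup_le fun j => iSup_le fun h => ?_
    exact le_iSup₂_of_le (f := fun j (_ : P j) => B.eigenspace (![8, 0, -8] (Fin.rev j)))
      (Fin.rev j) h (by simp)

lemma ind3 (E : Fin 3 → Submodule ℂ X) (P : Fin 3 → Prop) (l : X →ₗ[ℂ] ℂ)
    (h : ∀ j, P j → ∀ y ∈ E j, l y = 0) (x : X) (hx : x ∈ ⨆ j, ⨆ _ : P j, E j) : l x = 0 := by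
  have : (⨆ j, ⨆ _ : P j, E j) ≤ LinearMap.ker l :=
    iSup_le fun j => iSup_le fun p y hy => h j p y hy
  exact this hx

/-- `fa` as a linear map. -/
def fl : X →ₗ[ℂ] ℂ where
  toFun := fa
  map_add' x y := by simp [fa]; ring
  map_smul' c x := by simp [fa]; ring
/-- `ga` as a linear map. -/
def gl : X →ₗ[ℂ] ℂ where
  toFun := ga
  map_add' x y := by simp [ga]; ring
  map_smul' c x := by simp [ga]; ring

/-- The sum of the two middle coordinates. -/
def sl : X →ₗ[ℂ] ℂ where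
  toFun x := x 1 + x 2
  map_add' x y := by simp; ring
  map_smul' c x := by simp; ring

/-- Inverse of `S`. -/
noncomputable def T (x : X) : X :=
  ![x 0 / 2, (3 * x 1 + 15 * x 2) / 144, (-15 * x 1 - 27 * x 2) / 144, -x 3 / 18]

lemma mapS (U W : Submodule ℂ X) (h1 : ∀ x ∈ U, S x ∈ W) (h2 : ∀ y ∈ W, T y ∈ U) :
    U.map S = W := by
  apply le_antisymm
  · rintro _ ⟨x, hx, rfl⟩; exact h1 x hx
  · intro y hy
    refine ⟨T y, h2 y hy, ?_⟩
    rw [S_ap, ext4]; simp [T]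
    refine ⟨?_, ?_, ?_, ?_⟩ <;> ring

lemma ne4 {x : X} (h : x ≠ 0) : ¬ (x 0 = 0 ∧ x 1 = 0 ∧ x 2 = 0 ∧ x 3 = 0) := fun k =>
  h (ext4.2 (by simpa using k))

lemma irred (W : Submodule ℂ X) (hA : W.map A ≤ W) (hB : W.map B ≤ W) : W = ⊥ ∨ W = ⊤ := by
  have iA : ∀ x ∈ W, A x ∈ W := fun x hx => hA ⟨x, hx, rfl⟩
  have iB : ∀ x ∈ W, B x ∈ W := fun x hx => hB ⟨x, hx, rfl⟩
  have p0 : ∀ x ∈ W, x 0 ≠ 0 → (![1, 0, 0, 0] : X) ∈ W := by
    intro x hx h
    have := W.smul_mem (1 / (2 * x 0)) (add_mem (iA _ (iA x hx)) (iA x hx))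
    convert this using 1
    rw [ext4]; simp [A_ap]; field_simp; ring
  have p3 : ∀ x ∈ W, x 3 ≠ 0 → (![0, 0, 0, 1] : X) ∈ W := by
    intro x hx h
    have := W.smul_mem (1 / (2 * x 3)) (sub_mem (iA _ (iA x hx)) (iA x hx))
    convert this using 1
    rw [ext4]; simp [A_ap]; field_simp; ring
  have pm : ∀ x ∈ W, (![0, x 1, x 2, 0] : X) ∈ W := by
    intro x hx
    have := sub_mem hx (iA _ (iA x hx))
    convert this using 1
    rw [ext4]; simp [A_ap]
  have q0 : (![1, 0, 0, 0] : X) ∈ W → W = ⊤ := by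
    intro h
    have h1 := pm _ (iB _ h)
    have h2 := iB _ h1
    have h3 := p3 _ h2 (by simp [B_ap]; norm_num)
    have h4 := pm _ h2
    rw [eq_top_iff]
    intro x _
    have := add_mem (add_mem (W.smul_mem (x 0) h) (W.smul_mem (x 3) h3))
      (add_mem (W.smul_mem (-x 1 / 6 + x 2 / 8) h1) (W.smul_mem (x 1 / 30 + x 2 / 40) h4))
    convert this using 1
    rw [ext4]; simp [B_ap]
    refine ⟨?_, ?_⟩ <;> ring
  have q3 : (![0, 0, 0, 1] : X) ∈ W → W = ⊤ := by
    intro h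
    exact q0 (p0 _ (iB _ (pm _ (iB _ h))) (by simp [B_ap]; norm_num))
  by_cases hW : W = ⊥
  · exact Or.inl hW
  right
  obtain ⟨x, hx, hne⟩ := (Submodule.ne_bot_iff W).1 hW
  by_cases a0 : x 0 = 0
  · by_cases a3 : x 3 = 0
    · have h := iB _ hx
      by_cases b0 : B x 0 = 0
      · refine q3 (p3 _ h fun b3 => ne4 hne ?_)
        simp [B_ap] at b0 b3
        refine ⟨a0, ?_, ?_, a3⟩ <;> grind
      · exact q0 (p0 _ h b0)
    · exact q3 (p3 _ hx a3)
  · exact q0 (p0 _ hx a0)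

lemma hasEig (f : End ℂ X) (μ : ℂ) : f.HasEigenvalue μ ↔ ∃ x ∈ f.eigenspace μ, x ≠ 0 := by
  rw [End.hasEigenvalue_iff, Submodule.ne_bot_iff]

theorem result : ∃ (A B S : End ℂ (Fin 4 → ℂ)) (θ η : Fin 3 → ℂ),
    IsTD A B 2 θ η ∧ Admissible A B 2 θ η S ∧ ¬ Diag S := by
  refine ⟨A, B, S, ![1, 0, -1], ![8, 0, -8], ⟨?_, ?_, ⟨?_, ?_⟩, ?_, ⟨?_, ?_⟩, ?_, irred⟩, ?_, ?_⟩
  · rw [Diag, eq_top_iff]
    intro x _
    have h := supA (fun _ => True) x (by simp) (by simp) (by simp)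
    exact (iSup_le fun j => iSup_le fun _ => le_iSup (fun μ => A.eigenspace μ) _ :
      (⨆ j : Fin 3, ⨆ _ : True, A.eigenspace (![1, 0, -1] j)) ≤ _) h
  · rw [Diag, eq_top_iff]
    intro x _
    have h := supB (fun _ => True) x (by simp) (by simp) (by simp)
    exact (iSup_le fun j => iSup_le fun _ => le_iSup (fun μ => B.eigenspace μ) _ :
      (⨆ j : Fin 3, ⨆ _ : True, B.eigenspace (![8, 0, -8] j)) ≤ _) h
  · intro i j h
    fin_cases i <;> fin_cases j <;> simp at h ⊢ <;> norm_num at h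
  · intro μ
    rw [hasEig]
    constructor
    · rintro ⟨x, hx, hne⟩
      rw [memA] at hx
      have := ne4 hne
      by_contra hc
      have c0 : μ ≠ 1 := fun e => hc ⟨0, by simp [e]⟩
      have c1 : μ ≠ 0 := fun e => hc ⟨1, by simp [e]⟩
      have c2 : μ ≠ -1 := fun e => hc ⟨2, by simp [e]⟩
      obtain ⟨a, b, c, d⟩ := hx
      refine this ⟨?_, ?_, ?_, ?_⟩ <;> grind
    · rintro ⟨j, rfl⟩
      fin_cases j
      · exact ⟨![1, 0, 0, 0], by rw [memA]; simp, by rw [Ne, ext4]; simp⟩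
      · exact ⟨![0, 1, 0, 0], by rw [memA]; simp, by rw [Ne, ext4]; simp⟩
      · exact ⟨![0, 0, 0, 1], by rw [memA]; simp, by rw [Ne, ext4]; simp⟩
  · intro i
    rintro _ ⟨x, hx, rfl⟩
    have hx' := (memA _ _).1 hx
    refine supA (fun j : Fin 3 => (j : ℕ) ≤ i + 1 ∧ (i : ℕ) ≤ j + 1) _ ?_ ?_ ?_ <;>
      fin_cases i <;> simp [B_ap] at hx' ⊢ <;> grind
  · intro i j h
    fin_cases i <;> fin_cases j <;> simp at h ⊢ <;> norm_num at h
  · intro μ
    rw [hasEig]
    constructor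
    · rintro ⟨x, hx, hne⟩
      rw [memB] at hx
      have := ne4 hne
      by_contra hc
      have c0 : μ - 8 ≠ 0 := fun e => hc ⟨0, by simp; grind⟩
      have c1 : μ ≠ 0 := fun e => hc ⟨1, by simp [e]⟩
      have c2 : μ + 8 ≠ 0 := fun e => hc ⟨2, by simp; grind⟩
      obtain ⟨a, b, c, d⟩ := hx
      have hg : 3 * x 0 + x 1 + 3 * x 2 + x 3 = 0 := by
        apply mul_left_cancel₀ c0; linear_combination (-3) * a - b - 3 * c - d
      have hf : x 0 + 3 * x 1 - x 2 - 3 * x 3 = 0 := by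
        apply mul_left_cancel₀ c2; linear_combination (-1) * a - 3 * b + c + 3 * d
      refine this ⟨?_, ?_, ?_, ?_⟩ <;> apply mul_left_cancel₀ c1 <;> grind
    · rintro ⟨j, rfl⟩
      fin_cases j
      · exact ⟨![3, -1, 3, -1], by rw [memB]; simp; norm_num, by rw [Ne, ext4]; simp⟩
      · exact ⟨![1, -3, 1, -3], by rw [memB]; simp; norm_num, by rw [Ne, ext4]; simp⟩
      · exact ⟨![1, -3, -1, 3], by rw [memB]; simp; norm_num, by rw [Ne, ext4]; simp⟩
  · intro i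
    rintro _ ⟨x, hx, rfl⟩
    have hx' := (memB _ _).1 hx
    refine supB (fun j : Fin 3 => (j : ℕ) ≤ i + 1 ∧ (i : ℕ) ≤ j + 1) _ ?_ ?_ ?_ <;>
      fin_cases i <;> simp [A_ap, fa, ga] at hx' ⊢ <;> grind
  · intro i
    constructor
    · apply mapS
      · intro x hx
        rw [memA] at hx ⊢
        fin_cases i <;> simp [S_ap] at hx ⊢ <;> grind
      · intro x hx
        rw [memA] at hx ⊢
        fin_cases i <;> simp [T] at hx ⊢ <;> grind
    · rw [revB (fun j => j ≤ i)]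
      have e0 : (⨆ j : Fin 3, ⨆ _ : j ≤ 0, B.eigenspace (![8, 0, -8] j)) ≤ B.eigenspace 8 := by
        refine iSup_le fun j => iSup_le fun h => ?_
        fin_cases j <;> simp at h ⊢
      have e2 : (⨆ j : Fin 3, ⨆ _ : Fin.rev j ≤ 0, B.eigenspace (![8, 0, -8] j)) ≤
          B.eigenspace (-8) := by
        refine iSup_le fun j => iSup_le fun h => ?_
        fin_cases j
        · exact absurd h (by decide)
        · exact absurd h (by decide)
        · simp
      fin_cases i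
      · apply mapS
        · intro x hx
          have h := (memB _ _).1 (e0 hx)
          refine supB (fun j => Fin.rev j ≤ 0) _ (Or.inr ?_) (Or.inr (Or.inr ?_))
            (Or.inl (by decide))
          · simp [ga, S_ap]; grind
          · rw [memB]; simp [S_ap]; grind
        · intro x hx
          have h := (memB _ _).1 (e2 hx)
          refine supB (fun j => j ≤ 0) _ (Or.inl le_rfl) (Or.inr (Or.inl ?_)) (Or.inr ?_)
          · rw [memB]; simp [T]; grind
          · simp [fa, T]; grind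
      · apply mapS
        · intro x hx
          have h : fa x = 0 := by
            refine ind3 (fun j => B.eigenspace (![8, 0, -8] j)) (fun j => j ≤ 1) fl ?_ x hx
            intro j hj y hy
            have hy' := (memB _ _).1 hy
            change fa y = 0
            fin_cases j
            · simp [fa] at hy' ⊢; grind
            · simp [fa] at hy' ⊢; grind
            · exact absurd hj (by decide)
          refine supB (fun j => Fin.rev j ≤ 1) _ (Or.inr ?_) (Or.inl (by decide))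
            (Or.inl (by decide))
          simp [ga, fa, S_ap] at h ⊢; grind
        · intro x hx
          have h : ga x = 0 := by
            refine ind3 (fun j => B.eigenspace (![8, 0, -8] j)) (fun j => Fin.rev j ≤ 1) gl ?_ x hx
            intro j hj y hy
            have hy' := (memB _ _).1 hy
            change ga y = 0
            fin_cases j
            · exact absurd hj (by decide)
            · simp [ga] at hy' ⊢; grind
            · simp [ga] at hy' ⊢; grind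
          refine supB (fun j => j ≤ 1) _ (Or.inl (by decide)) (Or.inl (by decide)) (Or.inr ?_)
          simp [ga, fa, T] at h ⊢; grind
      · apply mapS
        · intro x _
          exact supB (fun j => Fin.rev j ≤ 2) _ (Or.inl (by decide)) (Or.inl (by decide))
            (Or.inl (by decide))
        · intro x _
          exact supB (fun j => j ≤ 2) _ (Or.inl (by decide)) (Or.inl (by decide))
            (Or.inl (by decide))
  · intro h
    have hle : (⨆ μ : ℂ, S.eigenspace μ) ≤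
        LinearMap.ker sl := by
      refine iSup_le fun μ x hx => ?_
      obtain ⟨_, b, c, _⟩ := (memS _ _).1 hx
      change x 1 + x 2 = 0
      by_cases e : μ + 12 = 0
      · have : μ = -12 := by linear_combination e
        subst this
        linear_combination (-1 / 15) * b
      · apply mul_left_cancel₀ e
        linear_combination (-1) * b - c
    rw [Diag] at h
    rw [h] at hle
    have := hle (Submodule.mem_top (x := (![0, 1, 0, 0] : X)))
    simp [sl] at this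

end Pool.Agent.Results.MP_6ebba1_al.NotDiag
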